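import Pool.Agent.helper17.EXC.Spec

set_option autoImplicit false

open Finset

namespace Pool.Agent.EXC

theorem DIC : DIC_stmt := by
  intro n C _ v hv
  obtain ⟨p, hp⟩ : ∃ p : Fin n → ℤ, p = fun i => max (v i) 0 := ⟨_, rfl⟩
  obtain ⟨m, hm⟩ : ∃ m : Fin n → ℤ, m = fun i => max (-v i) 0 := ⟨_, rfl⟩
  have hvpm : v = p - m := by
    funext i
    rw [Pi.sub_apply, hp, hm]
    show v i = max (v i) 0 - max (-v i) 0
    omega
  have hp0 : ∀ i, 0 ≤ p i := fun i => by rw [hp]; exact le_max_right _ _
  have hm0 : ∀ i, 0 ≤ m i := fun i => by rw [hm]; exact le_max_right _ _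
  have hpm : ∀ i, p i * m i = 0 := by
    intro i
    rw [hp, hm]
    show max (v i) 0 * max (-v i) 0 = 0
    rcases le_total (v i) 0 with h | h
    · rw [max_eq_right h, zero_mul]
    · rw [max_eq_right (by omega : -v i ≤ 0), mul_zero]
  have hle : ip C p m ≤ 0 := by
    unfold ip
    refine Finset.sum_nonpos fun i _ => Finset.sum_nonpos fun j _ => ?_
    by_cases hij : i = j
    · subst hij
      have : p i * C i i * m i = C i i * (p i * m i) := by ring
      rw [this, hpm, mul_zero]
    · have h1 := IsC.off (C := C) i j hij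
      have h2 : 0 ≤ p i * m j := mul_nonneg (hp0 i) (hm0 j)
      have h3 : p i * C i j * m j = C i j * (p i * m j) := by ring
      rw [h3]
      exact mul_nonpos_of_nonpos_of_nonneg h1 h2
  by_cases hpz : p = 0
  · right
    intro i
    have : v i = p i - m i := by
      rw [hvpm]
      rfl
    rw [Pi.neg_apply, this, hpz]
    have := hm0 i
    simp only [Pi.zero_apply]
    omega
  by_cases hmz : m = 0
  · left
    intro i
    have : v i = p i - m i := by
      rw [hvpm]
      rfl
    rw [this, hmz]
    have := hp0 i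
    simp only [Pi.zero_apply]
    omega
  exfalso
  have h1 := ip_two_le C p hpz
  have h2 := ip_two_le C m hmz
  have h3 : ip C v v = ip C p p - 2 * ip C p m + ip C m m := by
    rw [hvpm, ip_sub_left, ip_sub_right, ip_sub_right, ip_comm C m p]
    ring
  omega

end Pool.Agent.EXC
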